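import Mathlib

set_option autoImplicit false
open Finset

namespace Pool.Agent.Results.MP_9c4245_co.UnboundedThreshold

/-- `G` is a `k`-threshold graph. -/
def IsKThreshold {V : Type} (k : ℕ) (G : SimpleGraph V) : Prop :=
  ∃ θ : Fin k → ℝ, StrictMono θ ∧ ∃ r : V → ℝ, ∀ v w, v ≠ w →
    (G.Adj v w ↔ Odd (Finset.univ.filter (fun i => θ i ≤ r v + r w)).card)

/-- The edge set of `G` is the union of the edge sets of `d` threshold graphs. -/
def IsThresholdCover {V : Type} (d : ℕ) (G : SimpleGraph V) : Prop :=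
  ∃ T : Fin d → SimpleGraph V, (∀ i, IsKThreshold 1 (T i)) ∧
    ∀ v w, G.Adj v w ↔ ∃ i, (T i).Adj v w

/-- The threshold dimension of `G` equals `d`. -/
def ThresholdDimEq {V : Type} (G : SimpleGraph V) (d : ℕ) : Prop :=
  IsThresholdCover d G ∧ ∀ j < d, ¬ IsThresholdCover j G

/-! ### one threshold -/

theorem isThr_one_iff {V : Type} (G : SimpleGraph V) :
    IsKThreshold 1 G ↔ ∃ (θ : ℝ) (r : V → ℝ), ∀ v w, v ≠ w → (G.Adj v w ↔ θ ≤ r v + r w) := by
  constructor
  · rintro ⟨θ, -, r, h⟩
    refine ⟨θ 0, r, fun v w hvw => ?_⟩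
    rw [h v w hvw]
    by_cases h1 : θ 0 ≤ r v + r w
    · simp [h1, Finset.filter_singleton]
    · simp [h1, Finset.filter_singleton]
  · rintro ⟨θ, r, h⟩
    refine ⟨fun _ => θ, fun i j hij => absurd hij (by omega), r, fun v w hvw => ?_⟩
    rw [h v w hvw]
    by_cases h1 : θ ≤ r v + r w
    · simp [h1]
    · simp [h1]

theorem isThr_one_compl {V : Type} [Finite V] {G : SimpleGraph V} (h : IsKThreshold 1 G) :
    IsKThreshold 1 Gᶜ := by
  classical
  have := Fintype.ofFinite V
  rw [isThr_one_iff] at h ⊢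
  obtain ⟨θ, r, h⟩ := h
  set s : Finset ℝ := ((univ : Finset (V × V)).image (fun p => r p.1 + r p.2)).filter (· < θ) with hs
  have hmem : ∀ v w, r v + r w < θ → r v + r w ∈ s := by
    intro v w hvw
    rw [hs, mem_filter]
    exact ⟨mem_image.2 ⟨(v, w), mem_univ _, rfl⟩, hvw⟩
  rcases s.eq_empty_or_nonempty with he | hne
  · refine ⟨-θ + 1, fun v => - r v, fun v w hvw => ?_⟩
    rw [SimpleGraph.compl_adj, h v w hvw]
    have h1 : ¬ r v + r w < θ := fun hlt => by
      have := hmem v w hlt
      rw [he] at this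
      simp at this
    constructor
    · rintro ⟨-, h2⟩
      exact absurd (not_le.1 h2) h1
    · intro h2
      exact absurd h1 (by push Not; linarith)
  · obtain ⟨M, hM, hmax⟩ := s.exists_max_image id hne
    have hMθ : M < θ := (mem_filter.1 hM).2
    refine ⟨-M, fun v => - r v, fun v w hvw => ?_⟩
    rw [SimpleGraph.compl_adj, h v w hvw]
    constructor
    · rintro ⟨-, h2⟩
      have := hmax _ (hmem v w (not_le.1 h2))
      simp only [id] at this
      linarith
    · intro h2
      exact ⟨hvw, by push Not; linarith⟩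

theorem isThr_one_top {V : Type} : IsKThreshold 1 (⊤ : SimpleGraph V) := by
  rw [isThr_one_iff]
  exact ⟨0, fun _ => 0, fun v w hvw => by simp [hvw]⟩

/-- a graph whose complement has threshold dimension at most one is a threshold graph -/
theorem thr_of_cover {V : Type} [Finite V] {G : SimpleGraph V} {j : ℕ} (hj : j < 2)
    (h : IsThresholdCover j Gᶜ) : IsKThreshold 1 G := by
  obtain ⟨T, hT, hG⟩ := h
  have hj' : j = 0 ∨ j = 1 := by omega
  rcases hj' with rfl | rfl
  · have : G = ⊤ := by
      rw [← compl_inj_iff]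
      ext v w
      rw [hG v w]
      simp
    rw [this]
    exact isThr_one_top
  · have : G = (T 0)ᶜ := by
      rw [← compl_inj_iff, compl_compl]
      ext v w
      rw [hG v w]
      constructor
      · rintro ⟨i, hi⟩
        have : i = 0 := Subsingleton.elim _ _
        rwa [this] at hi
      · intro h
        exact ⟨0, h⟩
    rw [this]
    exact isThr_one_compl (hT 0)

/-! ### the upper bound: codes -/

/-- codes of `k`-threshold graphs -/
abbrev Code (n k : ℕ) := Equiv.Perm (Fin n) × (Fin k → Finset (Fin (2 * n)))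

/-- decoding -/
def dec {n k : ℕ} (c : Code n k) (v w : Fin n) : Prop :=
  v ≠ w ∧ Odd (univ.filter (fun i : Fin k =>
    (n - 1 - (c.1.symm v).1) < ((c.2 i).filter (fun x => x.1 ≤ (n - 1 - (c.1.symm v).1) + (c.1.symm w).1)).card)).card

/-- the staircase lemma: an antitone `f : Fin n → ℕ` with values at most `n` is coded by a set. -/
theorem staircase {n : ℕ} (f : Fin n → ℕ) (hf : Antitone f) (hfn : ∀ a, f a ≤ n) :
    ∃ S : Finset (Fin (2 * n)), ∀ a b : Fin n,
      f a ≤ b.1 ↔ (n - 1 - a.1) < (S.filter (fun x => x.1 ≤ (n - 1 - a.1) + b.1)).card := by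
  classical
  -- g a = f a + (n - 1 - a), strictly antitone
  have hg : ∀ a : Fin n, f a + (n - 1 - a.1) < 2 * n := by
    intro a
    have := hfn a
    have := a.2
    omega
  set g : Fin n → Fin (2 * n) := fun a => ⟨f a + (n - 1 - a.1), hg a⟩ with hgdef
  have hanti : ∀ a b : Fin n, a < b → g b < g a := by
    intro a b hab
    have h1 := hf hab.le
    have h2 : a.1 < b.1 := hab
    have h3 := b.2
    rw [Fin.lt_def]
    simp only [hgdef]
    omega
  have hinj : Function.Injective g := by
    intro a b hab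
    rcases lt_trichotomy a b with h | h | h
    · exact absurd hab (ne_of_gt (hanti a b h))
    · exact h
    · exact absurd hab (ne_of_lt (hanti b a h))
  refine ⟨univ.image g, fun a b => ?_⟩
  have hcard : ((univ.image g).filter (fun x => x.1 ≤ (n - 1 - a.1) + b.1)).card =
      (univ.filter (fun a' : Fin n => (g a').1 ≤ (n - 1 - a.1) + b.1)).card := by
    rw [filter_image, card_image_of_injective _ hinj]
  rw [hcard]
  constructor
  · intro h
    -- all a' ≥ a are counted
    have hsub : (univ.filter (fun a' : Fin n => a ≤ a')) ⊆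
        (univ.filter (fun a' : Fin n => (g a').1 ≤ (n - 1 - a.1) + b.1)) := by
      intro a' ha'
      simp only [mem_filter, mem_univ, true_and] at ha' ⊢
      have h1 := hf ha'
      have h2 : a.1 ≤ a'.1 := ha'
      simp only [hgdef]
      omega
    have h1 := card_le_card hsub
    have h2 : (univ.filter (fun a' : Fin n => a ≤ a')).card = n - a.1 := by
      have : (univ.filter (fun a' : Fin n => a ≤ a')) = Finset.Ici a := by
        ext x; simp
      rw [this, Fin.card_Ici]
    have := a.2
    omega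
  · intro h
    by_contra hcon
    push Not at hcon
    -- only a' > a are counted
    have hsub : (univ.filter (fun a' : Fin n => (g a').1 ≤ (n - 1 - a.1) + b.1)) ⊆
        (univ.filter (fun a' : Fin n => a < a')) := by
      intro a' ha'
      simp only [mem_filter, mem_univ, true_and] at ha' ⊢
      by_contra hle
      push Not at hle
      have h1 := hf hle
      have h2 : a'.1 ≤ a.1 := hle
      simp only [hgdef] at ha'
      have := a.2
      omega
    have h1 := card_le_card hsub
    have h2 : (univ.filter (fun a' : Fin n => a < a')).card = n - 1 - a.1 := by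
      have : (univ.filter (fun a' : Fin n => a < a')) = Finset.Ioi a := by
        ext x; simp
      rw [this, Fin.card_Ioi]
    omega

theorem exists_code {n k k' : ℕ} (hk : k' ≤ k) (G : SimpleGraph (Fin n)) (h : IsKThreshold k' G) :
    ∃ c : Code n k, ∀ v w, G.Adj v w ↔ dec c v w := by
  classical
  obtain ⟨θ, -, r, h⟩ := h
  set σ := Tuple.sort r with hσ
  have hmono : Monotone (r ∘ σ) := Tuple.monotone_sort r
  -- the staircases
  have hst : ∀ i : Fin k', ∃ S : Finset (Fin (2 * n)), ∀ a b : Fin n,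
      θ i ≤ r (σ a) + r (σ b) ↔ (n - 1 - a.1) < (S.filter (fun x => x.1 ≤ (n - 1 - a.1) + b.1)).card := by
    intro i
    set f : Fin n → ℕ := fun a => (univ.filter (fun b : Fin n => r (σ a) + r (σ b) < θ i)).card with hf
    have hanti : Antitone f := by
      intro a a' haa
      apply card_le_card
      intro b hb
      simp only [mem_filter, mem_univ, true_and] at hb ⊢
      have := hmono haa
      simp only [Function.comp] at this
      linarith
    have hfn : ∀ a, f a ≤ n := by
      intro a
      refine le_trans (card_le_univ _) (by simp)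
    obtain ⟨S, hS⟩ := staircase f hanti hfn
    refine ⟨S, fun a b => ?_⟩
    rw [← hS a b]
    constructor
    · intro hle
      have hsub : (univ.filter (fun b' : Fin n => r (σ a) + r (σ b') < θ i)) ⊆ Finset.Iio b := by
        intro b' hb'
        simp only [mem_filter, mem_univ, true_and, mem_Iio] at hb' ⊢
        by_contra hge
        push Not at hge
        have := hmono hge
        simp only [Function.comp] at this
        linarith
      have := card_le_card hsub
      rwa [Fin.card_Iio] at this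
    · intro hle
      by_contra hlt
      push Not at hlt
      have hsub : Finset.Iic b ⊆ (univ.filter (fun b' : Fin n => r (σ a) + r (σ b') < θ i)) := by
        intro b' hb'
        simp only [mem_filter, mem_univ, true_and, mem_Iic] at hb' ⊢
        have := hmono hb'
        simp only [Function.comp] at this
        linarith
      have := card_le_card hsub
      rw [Fin.card_Iic] at this
      simp only [hf] at hle
      omega
  choose S hS using hst
  refine ⟨(σ, fun i => if hi : i.1 < k' then S ⟨i.1, hi⟩ else ∅), fun v w => ?_⟩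
  unfold dec
  by_cases hvw : v = w
  · subst hvw
    simp
  · rw [h v w hvw]
    simp only [ne_eq, hvw, not_false_eq_true, true_and]
    have hcard : (univ.filter (fun i : Fin k' => θ i ≤ r v + r w)).card =
        (univ.filter (fun i : Fin k => (n - 1 - (σ.symm v).1) <
          ((if hi : i.1 < k' then S ⟨i.1, hi⟩ else ∅ : Finset (Fin (2 * n))).filter
            (fun x => x.1 ≤ (n - 1 - (σ.symm v).1) + (σ.symm w).1)).card)).card := by
      refine card_bij (fun i _ => Fin.castLE hk i) ?_ ?_ ?_
      · intro i hi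
        simp only [mem_filter, mem_univ, true_and] at hi ⊢
        have h1 : (Fin.castLE hk i).1 < k' := i.2
        rw [dif_pos h1]
        have h2 := (hS i (σ.symm v) (σ.symm w)).1 (by simpa using hi)
        exact h2
      · intro i _ j _ hij
        exact Fin.castLE_injective hk hij
      · intro i hi
        simp only [mem_filter, mem_univ, true_and] at hi
        by_cases h1 : i.1 < k'
        · refine ⟨⟨i.1, h1⟩, ?_, rfl⟩
          rw [dif_pos h1] at hi
          simp only [mem_filter, mem_univ, true_and]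
          have h2 := (hS ⟨i.1, h1⟩ (σ.symm v) (σ.symm w)).2 hi
          simpa using h2
        · rw [dif_neg h1] at hi
          simp at hi
    rw [hcard]

/-- the number of graphs that are `k'`-threshold for some `k' ≤ k` -/
theorem card_thr (n k : ℕ) :
    Set.ncard {G : SimpleGraph (Fin n) | ∃ k' ≤ k, IsKThreshold k' G} ≤ n ^ n * 2 ^ (2 * n * k) := by
  classical
  have h1 : ∀ G : {G : SimpleGraph (Fin n) | ∃ k' ≤ k, IsKThreshold k' G},
      ∃ c : Code n k, ∀ v w, G.1.Adj v w ↔ dec c v w := by
    rintro ⟨G, k', hk, h⟩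
    exact exists_code hk G h
  choose c hc using h1
  have hinj : Function.Injective c := by
    intro G G' h
    apply Subtype.ext
    ext v w
    rw [hc G, hc G', h]
  rw [← Nat.card_coe_set_eq]
  refine le_trans (Nat.card_le_card_of_injective c hinj) ?_
  rw [Nat.card_eq_fintype_card, Fintype.card_prod, Fintype.card_perm, Fintype.card_fin, Fintype.card_fun,
    Fintype.card_finset, Fintype.card_fin, Fintype.card_fin, ← pow_mul]
  exact Nat.mul_le_mul_right _ (Nat.factorial_le_pow _)

/-! ### the lower bound -/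

/-- the threshold graph with ranks `r` and threshold `θ` -/
def TG {V : Type} (θ : ℝ) (r : V → ℝ) : SimpleGraph V where
  Adj v w := v ≠ w ∧ θ ≤ r v + r w
  symm := ⟨fun v w h => ⟨h.1.symm, by rw [add_comm]; exact h.2⟩⟩
  loopless := ⟨fun v h => h.1 rfl⟩

theorem TG_thr {V : Type} (θ : ℝ) (r : V → ℝ) : IsKThreshold 1 (TG θ r) := by
  rw [isThr_one_iff]
  exact ⟨θ, r, fun v w hvw => ⟨fun h => h.2, fun h => ⟨hvw, h⟩⟩⟩

section lower

variable (m : ℕ)

def rk1 (a : Fin (6 * m) → Fin (m + 1)) : Fin (6 * m) ⊕ (Fin m ⊕ Fin m) → ℝ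
  | Sum.inl u => (a u : ℕ)
  | Sum.inr (Sum.inl j) => 4 * m + 4 - ((j : ℕ) + 1)
  | Sum.inr (Sum.inr _) => 4 * m + 4

def rk2 (b : Fin (6 * m) → Fin (m + 1)) : Fin (6 * m) ⊕ (Fin m ⊕ Fin m) → ℝ
  | Sum.inl u => (b u : ℕ)
  | Sum.inr (Sum.inl _) => 4 * m + 4
  | Sum.inr (Sum.inr j) => 4 * m + 4 - ((j : ℕ) + 1)

theorem card_eq : Fintype.card (Fin (6 * m) ⊕ (Fin m ⊕ Fin m)) = 8 * m := by
  simp; ring

noncomputable def ee : Fin (6 * m) ⊕ (Fin m ⊕ Fin m) ≃ Fin (8 * m) :=
  Fintype.equivFinOfCardEq (card_eq m)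

noncomputable def GG (p : (Fin (6 * m) → Fin (m + 1)) × (Fin (6 * m) → Fin (m + 1))) :
    SimpleGraph (Fin (8 * m)) :=
  TG (4 * m + 4) (fun v => rk1 m p.1 ((ee m).symm v)) ⊓ TG (4 * m + 4) (fun v => rk2 m p.2 ((ee m).symm v))

theorem GG_cover (p : (Fin (6 * m) → Fin (m + 1)) × (Fin (6 * m) → Fin (m + 1))) :
    IsThresholdCover 2 (GG m p)ᶜ := by
  refine ⟨![(TG (4 * m + 4) (fun v => rk1 m p.1 ((ee m).symm v)))ᶜ,
    (TG (4 * m + 4) (fun v => rk2 m p.2 ((ee m).symm v)))ᶜ], ?_, ?_⟩
  · intro i
    fin_cases i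
    · exact isThr_one_compl (TG_thr _ _)
    · exact isThr_one_compl (TG_thr _ _)
  · intro v w
    rw [Fin.exists_fin_two]
    simp only [GG, SimpleGraph.compl_adj, SimpleGraph.inf_adj, Matrix.cons_val_zero, Matrix.cons_val_one]
    tauto

theorem GG_adj1 (p : (Fin (6 * m) → Fin (m + 1)) × (Fin (6 * m) → Fin (m + 1))) (u : Fin (6 * m)) (j : Fin m) :
    (GG m p).Adj (ee m (Sum.inl u)) (ee m (Sum.inr (Sum.inl j))) ↔ j.1 + 1 ≤ (p.1 u).1 := by
  unfold GG TG
  simp only [SimpleGraph.inf_adj, Equiv.symm_apply_apply, rk1, rk2]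
  have h1 : ee m (Sum.inl u) ≠ ee m (Sum.inr (Sum.inl j)) := by
    intro h
    have := (ee m).injective h
    simp at this
  have h2 : (0 : ℝ) ≤ ((p.2 u : ℕ) : ℝ) := Nat.cast_nonneg _
  constructor
  · rintro ⟨⟨_, h⟩, -⟩
    have : ((j.1 + 1 : ℕ) : ℝ) ≤ ((p.1 u : ℕ) : ℝ) := by push_cast; linarith
    exact_mod_cast this
  · intro h
    have : ((j.1 + 1 : ℕ) : ℝ) ≤ ((p.1 u : ℕ) : ℝ) := by exact_mod_cast h
    push_cast at this
    exact ⟨⟨h1, by linarith⟩, h1, by linarith⟩

theorem GG_adj2 (p : (Fin (6 * m) → Fin (m + 1)) × (Fin (6 * m) → Fin (m + 1))) (u : Fin (6 * m)) (j : Fin m) :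
    (GG m p).Adj (ee m (Sum.inl u)) (ee m (Sum.inr (Sum.inr j))) ↔ j.1 + 1 ≤ (p.2 u).1 := by
  unfold GG TG
  simp only [SimpleGraph.inf_adj, Equiv.symm_apply_apply, rk1, rk2]
  have h1 : ee m (Sum.inl u) ≠ ee m (Sum.inr (Sum.inr j)) := by
    intro h
    have := (ee m).injective h
    simp at this
  have h2 : (0 : ℝ) ≤ ((p.1 u : ℕ) : ℝ) := Nat.cast_nonneg _
  constructor
  · rintro ⟨-, _, h⟩
    have : ((j.1 + 1 : ℕ) : ℝ) ≤ ((p.2 u : ℕ) : ℝ) := by push_cast; linarith
    exact_mod_cast this
  · intro h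
    have : ((j.1 + 1 : ℕ) : ℝ) ≤ ((p.2 u : ℕ) : ℝ) := by exact_mod_cast h
    push_cast at this
    exact ⟨⟨h1, by linarith⟩, h1, by linarith⟩

theorem fin_eq {x y : Fin (m + 1)} (h : ∀ j : Fin m, j.1 + 1 ≤ x.1 ↔ j.1 + 1 ≤ y.1) : x = y := by
  apply Fin.ext
  have hx := x.2
  have hy := y.2
  apply le_antisymm
  · by_contra hlt
    push Not at hlt
    have := (h ⟨x.1 - 1, by omega⟩).1 (by simp only; omega)
    simp only at this
    omega
  · by_contra hlt
    push Not at hlt
    have := (h ⟨y.1 - 1, by omega⟩).2 (by simp only; omega)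
    simp only at this
    omega

theorem GG_inj : Function.Injective (GG m) := by
  intro p p' h
  refine Prod.ext (funext fun u => ?_) (funext fun u => ?_)
  · apply fin_eq
    intro j
    rw [← GG_adj1, ← GG_adj1, h]
  · apply fin_eq
    intro j
    rw [← GG_adj2, ← GG_adj2, h]

end lower

/-- Among the graphs `G` on `2 ^ (4 k + 9)` vertices with `t(Gᶜ) = 2` there is one that is not
`k'`-threshold for any `k' ≤ k`. -/
theorem result : ∀ k : ℕ, 1 ≤ k → ∃ G : SimpleGraph (Fin (2 ^ (4 * k + 9))),
    ThresholdDimEq Gᶜ 2 ∧ ∀ k' ≤ k, ¬ IsKThreshold k' G := by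
  classical
  intro k hk
  set m : ℕ := 2 ^ (4 * k + 6) with hm
  have h8 : 2 ^ (4 * k + 9) = 8 * m := by
    rw [hm]; ring
  rw [h8]
  have key : ∃ p, ∀ k' ≤ k, ¬ IsKThreshold k' (GG m p) := by
    by_contra hcon
    push Not at hcon
    have h1 : Set.range (GG m) ⊆ {G : SimpleGraph (Fin (8 * m)) | ∃ k' ≤ k, IsKThreshold k' G} := by
      rintro G ⟨p, rfl⟩
      exact hcon p
    have h2 := Set.ncard_le_ncard h1 (Set.toFinite _)
    have h3 := card_thr (8 * m) k
    have h4 : (Set.range (GG m)).ncard = (m + 1) ^ (12 * m) := by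
      rw [← Nat.card_coe_set_eq, Nat.card_range_of_injective (GG_inj m), Nat.card_eq_fintype_card]
      simp only [Fintype.card_prod, Fintype.card_fun, Fintype.card_fin]
      rw [← pow_add]
      congr 1
      ring
    rw [h4] at h2
    have h5 : m ^ (12 * m) < (m + 1) ^ (12 * m) := by
      apply Nat.pow_lt_pow_left (Nat.lt_succ_self m)
      have : 0 < m := by rw [hm]; positivity
      omega
    have h6 : m ^ (12 * m) = (8 * m) ^ (8 * m) * 2 ^ (2 * (8 * m) * k) := by
      have e1 : m ^ (12 * m) = 2 ^ ((4 * k + 6) * (12 * m)) := by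
        conv_lhs => rw [show m ^ (12 * m) = (2 ^ (4 * k + 6)) ^ (12 * m) from rfl]
        rw [← pow_mul]
      have e2 : (8 * m) ^ (8 * m) = 2 ^ ((4 * k + 9) * (8 * m)) := by
        rw [← h8, ← pow_mul, h8]
      rw [e1, e2, ← pow_add]
      congr 1
      ring
    omega
  obtain ⟨p, hp⟩ := key
  refine ⟨GG m p, ⟨GG_cover m p, fun j hj hcov => ?_⟩, hp⟩
  exact hp 1 hk (thr_of_cover hj hcov)

end Pool.Agent.Results.MP_9c4245_co.UnboundedThreshold
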